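import Pool.Agent.Helper63.SM.Defs

set_option autoImplicit false

namespace Pool.Agent.Helper63.SM

/-- adding one element: the increment grows with the set -/
theorem sup_one {k : ℕ} (Φ : Finset (Fin k) → ℝ)
    (h : ∀ (S : Finset (Fin k)) (i j : Fin k), i ∉ S → j ∉ S → i ≠ j →
      Φ (insert i S) + Φ (insert j S) ≤ Φ (insert i (insert j S)) + Φ S)
    (A : Finset (Fin k)) (c : Fin k) (D : Finset (Fin k)) (hc : c ∉ A ∪ D) :
    Φ (insert c A) - Φ A ≤ Φ (insert c (A ∪ D)) - Φ (A ∪ D) := by
  classical
  induction D using Finset.induction_on with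
  | empty => simp
  | insert d D hd ih =>
    have hc' : c ∉ A ∪ D := by
      intro hm
      apply hc
      simp only [Finset.mem_union, Finset.mem_insert] at hm ⊢
      tauto
    have hcd : c ≠ d := by
      rintro rfl
      apply hc
      simp
    have h1 := ih hc'
    have he : A ∪ insert d D = insert d (A ∪ D) := by
      rw [Finset.union_insert]
    rw [he]
    by_cases hdA : d ∈ A ∪ D
    · rw [Finset.insert_eq_self.2 hdA]
      exact h1
    · have h2 := h (A ∪ D) c d hc' hdA hcd
      linarith

theorem sup_of_pair {k : ℕ} (Φ : Finset (Fin k) → ℝ)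
    (h : ∀ (S : Finset (Fin k)) (i j : Fin k), i ∉ S → j ∉ S → i ≠ j →
      Φ (insert i S) + Φ (insert j S) ≤ Φ (insert i (insert j S)) + Φ S)
    {A B C : Finset (Fin k)} (hAB : A ⊆ B) (hC : Disjoint B C) :
    Φ (A ∪ C) - Φ A ≤ Φ (B ∪ C) - Φ B := by
  classical
  induction C using Finset.induction_on with
  | empty => simp
  | insert c C hcC ih =>
    have hBC : Disjoint B C := hC.mono_right (Finset.subset_insert c C)
    have hcB : c ∉ B := fun hm => (Finset.disjoint_left.1 hC hm) (Finset.mem_insert_self c C)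
    have h1 := ih hBC
    have hu : A ∪ C ∪ B = B ∪ C := by
      ext x
      simp only [Finset.mem_union]
      constructor
      · rintro ((hx | hx) | hx)
        · exact Or.inl (hAB hx)
        · exact Or.inr hx
        · exact Or.inl hx
      · rintro (hx | hx)
        · exact Or.inr hx
        · exact Or.inl (Or.inr hx)
    have hc : c ∉ A ∪ C ∪ B := by
      rw [hu]
      simp only [Finset.mem_union]
      tauto
    have h2 := sup_one Φ h (A ∪ C) c B hc
    rw [hu] at h2
    rw [Finset.union_insert, Finset.union_insert]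
    linarith

theorem chain_ineq {k : ℕ} (Φ : Finset (Fin k) → ℝ)
    (h : ∀ (S : Finset (Fin k)) (i j : Fin k), i ∉ S → j ∉ S → i ≠ j →
      Φ (insert i S) + Φ (insert j S) ≤ Φ (insert i (insert j S)) + Φ S)
    {N : ℕ} (S : ℕ → Finset (Fin k)) (hS : Monotone S) (h0 : S 0 = ∅) (hN : S N = Finset.univ)
    (L : Finset (Fin k)) :
    Φ L + ∑ i ∈ Finset.range N, (Φ (S i ∪ (S (i + 1) \ L)) - Φ (S i)) ≤ Φ Finset.univ := by
  classical
  have step : ∀ i : ℕ, Φ (S i ∪ (S (i + 1) \ L)) - Φ (S i) ≤
      (Φ (S (i + 1)) - Φ (L ∩ S (i + 1))) - (Φ (S i) - Φ (L ∩ S i)) := by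
    intro i
    have hsub : S i ⊆ S (i + 1) := hS (Nat.le_succ i)
    set D := S (i + 1) \ S i with hD
    have hdis : Disjoint (S i) (L ∩ D) := by
      rw [Finset.disjoint_left]
      intro x hx hx'
      rw [hD] at hx'
      simp only [Finset.mem_inter, Finset.mem_sdiff] at hx'
      exact hx'.2.2 hx
    have h1 := sup_of_pair Φ h (A := L ∩ S i) (B := S i) (C := L ∩ D)
      Finset.inter_subset_right hdis
    have hdis2 : Disjoint (S i ∪ (L ∩ D)) (D \ L) := by
      rw [Finset.disjoint_left]
      intro x hx hx'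
      rw [hD] at hx hx'
      simp only [Finset.mem_inter, Finset.mem_sdiff, Finset.mem_union] at hx hx'
      tauto
    have h2 := sup_of_pair Φ h (A := S i) (B := S i ∪ (L ∩ D)) (C := D \ L)
      Finset.subset_union_left hdis2
    have e1 : L ∩ S i ∪ L ∩ D = L ∩ S (i + 1) := by
      ext x
      rw [hD]
      simp only [Finset.mem_inter, Finset.mem_sdiff, Finset.mem_union]
      have := @hsub x
      tauto
    have e2 : S i ∪ L ∩ D ∪ D \ L = S (i + 1) := by
      ext x
      rw [hD]
      simp only [Finset.mem_inter, Finset.mem_sdiff, Finset.mem_union]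
      have := @hsub x
      tauto
    have e3 : S i ∪ D \ L = S i ∪ (S (i + 1) \ L) := by
      ext x
      rw [hD]
      simp only [Finset.mem_sdiff, Finset.mem_union]
      tauto
    rw [e1] at h1
    rw [e2, e3] at h2
    linarith
  have hsum : ∑ i ∈ Finset.range N, (Φ (S i ∪ (S (i + 1) \ L)) - Φ (S i)) ≤
      (Φ (S N) - Φ (L ∩ S N)) - (Φ (S 0) - Φ (L ∩ S 0)) := by
    rw [← Finset.sum_range_sub (fun i => Φ (S i) - Φ (L ∩ S i)) N]
    exact Finset.sum_le_sum fun i _ => step i
  rw [hN, h0] at hsum
  simp only [Finset.inter_univ, Finset.inter_empty] at hsum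
  linarith

end Pool.Agent.Helper63.SM
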